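import Pool.Agent.W78.EG.Defs2

/-!
Project EG (helper78), task EG-FINL: logarithmic weights for the values of `a m^2 + b m + e`.
-/

set_option autoImplicit false

namespace Pool.Agent.W293.EG

open Finset Filter
open Pool.Agent.W78.EG
open ArithmeticFunction (cardFactors)

/-- the values -/
def g (a b e : ℤ) (m : ℕ) : ℤ := a * (m : ℤ) ^ 2 + b * m + e

variable {a b e t c : ℤ}

lemma four_g (a b e : ℤ) (m : ℕ) :
    4 * a * g a b e m = (2 * a * m + b) ^ 2 + (4 * a * e - b ^ 2) := by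
  unfold g
  ring

lemma g_pos (ha : 0 < a) (hd : 0 < 4 * a * e - b ^ 2) (m : ℕ) : 0 < g a b e m := by
  have h1 := four_g a b e m
  have h2 : 0 < 4 * a * g a b e m := by nlinarith [sq_nonneg (2 * a * m + b)]
  exact (mul_pos_iff_of_pos_left (by linarith : 0 < 4 * a)).1 h2

lemma qv_eq (ha : 0 < a) (hd : 0 < 4 * a * e - b ^ 2) (m : ℕ) : (qv a b e m : ℤ) = g a b e m :=
  Int.toNat_of_nonneg (g_pos ha hd m).le

lemma lin_pos (ha : 0 < a) {m : ℕ} (hm : b.natAbs < m) : a * m ≤ 2 * a * m + b ∧ 1 ≤ a * m := by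
  have h1 : (m : ℤ) ≤ a * m := le_mul_of_one_le_left (by positivity) (by linarith)
  have h2 : |b| < (m : ℤ) := by
    rw [← Int.natCast_natAbs]
    exact_mod_cast hm
  have h3 := neg_abs_le b
  have h4 := abs_nonneg b
  constructor <;> linarith

lemma g_inj (ha : 0 < a) {m m' : ℕ} (hm : b.natAbs < m) (hm' : b.natAbs < m')
    (h : g a b e m = g a b e m') : m = m' := by
  have h1 := four_g a b e m
  have h2 := four_g a b e m'
  rw [h, h2] at h1
  obtain ⟨h3, h4⟩ := lin_pos ha hm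
  obtain ⟨h5, h6⟩ := lin_pos ha hm'
  have h7 : (2 * a * m' + b) ^ 2 = (2 * a * m + b) ^ 2 := by linarith
  have h8 : 2 * a * m' + b = 2 * a * m + b := by
    rcases sq_eq_sq_iff_eq_or_eq_neg.1 h7 with h | h
    · exact h
    · linarith
  have h9 : 2 * a * ((m' : ℤ) - m) = 0 := by linear_combination h8
  rcases mul_eq_zero.1 h9 with h | h
  · linarith
  · omega

lemma g_lower (ha : 0 < a) (hd : 0 < 4 * a * e - b ^ 2) {m : ℕ} (hm : b.natAbs < m) :
    (m : ℤ) ^ 2 ≤ 4 * g a b e m := by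
  have h1 := four_g a b e m
  obtain ⟨h3, h4⟩ := lin_pos ha hm
  have h5 : (a * m) ^ 2 ≤ (2 * a * m + b) ^ 2 := pow_le_pow_left₀ (by linarith) h3 2
  have h6 : a * (a * (m : ℤ) ^ 2) ≤ a * (4 * g a b e m) := by nlinarith
  have h7 : a * (m : ℤ) ^ 2 ≤ 4 * g a b e m := le_of_mul_le_mul_left h6 ha
  have h8 : (m : ℤ) ^ 2 ≤ a * (m : ℤ) ^ 2 := le_mul_of_one_le_left (by positivity) (by linarith)
  linarith

lemma g_upper (a b e : ℤ) {m : ℕ} (hm : 1 ≤ m) :
    g a b e m ≤ ((a.natAbs + b.natAbs + e.natAbs : ℕ) : ℤ) * (m : ℤ) ^ 2 := by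
  unfold g
  have h1 : (1 : ℤ) ≤ m := by exact_mod_cast hm
  have h2 : (m : ℤ) ≤ (m : ℤ) ^ 2 := by nlinarith
  have h3 : a * (m : ℤ) ^ 2 ≤ |a| * (m : ℤ) ^ 2 :=
    mul_le_mul_of_nonneg_right (le_abs_self a) (by positivity)
  have h4 : b * (m : ℤ) ≤ |b| * (m : ℤ) ^ 2 :=
    (mul_le_mul_of_nonneg_right (le_abs_self b) (by positivity)).trans
      (mul_le_mul_of_nonneg_left h2 (abs_nonneg b))
  have h5 : e ≤ |e| * (m : ℤ) ^ 2 := (le_abs_self e).trans
    (le_mul_of_one_le_right (abs_nonneg e) (by nlinarith))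
  push_cast
  linarith

lemma cnt (htt : t = 0 ∨ t = 1) (h3 : S_SCNT t c) (ha : 0 < a)
    (hdisc : b ^ 2 - 4 * a * e = t ^ 2 - 4 * c) :
    ∃ C : ℝ, 0 ≤ C ∧ ∀ x y : ℕ, 1 ≤ x → 1 ≤ y → ∀ U : Finset (ℕ × ℕ),
      (∀ p ∈ U, 1 ≤ p.1 ∧ p.1 ≤ x ∧ 1 ≤ p.2 ∧ p.2 ≤ y ∧
        ∃ m : ℕ, b.natAbs < m ∧ (p.1 * p.2 : ℤ) = g a b e m) →
      (U.card : ℝ) ≤ C * Real.sqrt (x * y) := by
  classical
  obtain ⟨C, hC⟩ := h3
  have hC0 : 0 ≤ C := by
    have := hC 1 1 le_rfl le_rfl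
    simp only [Nat.cast_one, mul_one, Real.sqrt_one] at this
    exact le_trans (Nat.cast_nonneg _) this
  obtain ⟨A, hA⟩ : ∃ A : ℕ, (A : ℤ) = a := ⟨a.toNat, Int.toNat_of_nonneg ha.le⟩
  have hA1 : 1 ≤ A := by
    have : (0 : ℤ) < A := by rw [hA]; exact ha
    omega
  refine ⟨C * Real.sqrt A, by positivity, fun x y hx hy U hU => ?_⟩
  have hpar : ∃ s : ℤ, b - t = 2 * s := by
    have h1 : (2 : ℤ) ∣ (b - t) * (b + t) := ⟨2 * (a * e - c), by linear_combination hdisc⟩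
    rcases Int.prime_two.dvd_or_dvd h1 with h | h
    · exact h
    · obtain ⟨s, hs⟩ := h
      exact ⟨s - t, by linarith⟩
  obtain ⟨s, hs⟩ := hpar
  have hn : ∀ p ∈ U, ∃ n : ℕ, 0 < 2 * (n : ℤ) + t ∧
      ((A * p.1 : ℕ) : ℤ) * p.2 = (n : ℤ) ^ 2 + t * n + c := by
    intro p hp
    obtain ⟨-, -, -, -, m, hm, hm2⟩ := hU p hp
    obtain ⟨h4, h5⟩ := lin_pos ha hm
    have h6 : 0 ≤ a * m + s := by rcases htt with h | h <;> rw [h] at hs <;> linarith
    refine ⟨(a * m + s).toNat, ?_, ?_⟩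
    · rw [Int.toNat_of_nonneg h6]
      linarith
    · rw [Int.toNat_of_nonneg h6]
      push_cast
      rw [hA, mul_assoc, hm2]
      have h7 := four_g a b e m
      have h8 : b = t + 2 * s := by linarith
      have h9 : 4 * (a * g a b e m) = 4 * ((a * m + s) ^ 2 + t * (a * m + s) + c) := by
        have h10 : 4 * (a * g a b e m) = 4 * a * g a b e m := by ring
        rw [h10, h7]
        have h11 : 4 * a * e - b ^ 2 = 4 * c - t ^ 2 := by linarith
        rw [h11, h8]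
        ring
      linarith
  have hsqrt : C * Real.sqrt A * Real.sqrt (x * y) = C * Real.sqrt (((A * x : ℕ) : ℝ) * y) := by
    rw [mul_assoc, ← Real.sqrt_mul (Nat.cast_nonneg _)]
    congr 2
    push_cast
    ring
  rw [hsqrt]
  rcases le_total (A * x) y with hle | hle
  · refine le_trans ?_ (hC (A * x) y (Nat.mul_pos hA1 hx) hle)
    rw [Nat.cast_le]
    refine card_le_card_of_injOn (fun p => (A * p.1, p.2)) ?_ ?_
    · intro p hp
      obtain ⟨h4, h5, h6, h7, -⟩ := hU p hp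
      rw [mem_coe, mem_filter, mem_product, mem_Icc, mem_Icc]
      exact ⟨⟨⟨Nat.mul_pos hA1 h4, Nat.mul_le_mul_left _ h5⟩, ⟨h6, h7⟩⟩, hn p hp⟩
    · intro p _ p' _ h
      simp only [Prod.mk.injEq] at h
      exact Prod.ext (Nat.eq_of_mul_eq_mul_left hA1 h.1) h.2
  · refine le_trans ?_ (le_of_le_of_eq (hC y (A * x) hy hle) (by rw [mul_comm (y : ℝ)]))
    rw [Nat.cast_le]
    refine card_le_card_of_injOn (fun p => (p.2, A * p.1)) ?_ ?_
    · intro p hp
      obtain ⟨h4, h5, h6, h7, -⟩ := hU p hp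
      rw [mem_coe, mem_filter, mem_product, mem_Icc, mem_Icc]
      obtain ⟨n, hn1, hn2⟩ := hn p hp
      exact ⟨⟨⟨h6, h7⟩, ⟨Nat.mul_pos hA1 h4, Nat.mul_le_mul_left _ h5⟩⟩, n, hn1, by
        rw [← hn2]; exact mul_comm _ _⟩
    · intro p _ p' _ h
      simp only [Prod.mk.injEq] at h
      exact Prod.ext (Nat.eq_of_mul_eq_mul_left hA1 h.2) h.1

/-- dyadic decomposition of the tail -/
lemma tail {C : ℝ} (hC0 : 0 ≤ C) (E : ℕ × ℕ → Prop)
    (hE : ∀ x y : ℕ, 1 ≤ x → 1 ≤ y → ∀ U : Finset (ℕ × ℕ),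
      (∀ p ∈ U, 1 ≤ p.1 ∧ p.1 ≤ x ∧ 1 ≤ p.2 ∧ p.2 ≤ y ∧ E p) →
      (U.card : ℝ) ≤ C * Real.sqrt (x * y)) (G N : ℕ) (hG : 1 ≤ G) (hN : 1 ≤ N)
    (U : Finset (ℕ × ℕ)) (hU : ∀ p ∈ U, 1 ≤ p.1 ∧ N < p.2 ∧ p.1 * p.2 ≤ G * N ^ 2 ∧ E p) :
    ∑ p ∈ U, 1 / (p.2 : ℝ) ≤ 2 * (C * Real.sqrt (2 * G)) := by
  classical
  set g : ℕ × ℕ → ℕ := fun p => Nat.log 2 ((p.2 - 1) / N) with hg
  have hNpos : (0 : ℝ) < N := by exact_mod_cast hN
  rw [← Finset.sum_fiberwise_of_maps_to (t := U.image g) (g := g)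
    (fun p hp => mem_image_of_mem g hp)]
  have cell : ∀ k ∈ U.image g, ∑ p ∈ U with g p = k, 1 / (p.2 : ℝ) ≤
      (C * Real.sqrt (2 * G)) * (1 / 2) ^ k := by
    intro k _
    set V := U.filter (fun p => g p = k) with hV
    have hmem : ∀ p ∈ V, 2 ^ k * N + 1 ≤ p.2 ∧ p.2 ≤ 2 ^ (k + 1) * N ∧ 1 ≤ p.1 ∧
        p.1 ≤ G * N / 2 ^ k ∧ E p := by
      intro p hp
      rw [hV, mem_filter] at hp
      obtain ⟨hpU, hp3⟩ := hp
      obtain ⟨hp1, hp2, hp4, hp5⟩ := hU p hpU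
      have h0 : (p.2 - 1) / N ≠ 0 := by
        rw [Nat.div_ne_zero_iff]
        omega
      have h4 : 2 ^ k ≤ (p.2 - 1) / N := by
        rw [← hp3]
        exact Nat.pow_log_le_self 2 h0
      have h5 : (p.2 - 1) / N < 2 ^ (k + 1) := by
        rw [← hp3]
        exact Nat.lt_pow_succ_log_self (by norm_num) _
      have h6 : 2 ^ k * N ≤ p.2 - 1 := (Nat.le_div_iff_mul_le (by omega)).1 h4
      have h7 : p.2 - 1 < 2 ^ (k + 1) * N := (Nat.div_lt_iff_lt_mul (by omega)).1 h5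
      refine ⟨by omega, by omega, hp1, ?_, hp5⟩
      rw [Nat.le_div_iff_mul_le (by positivity)]
      have h8 : (p.1 * 2 ^ k) * N ≤ (G * N) * N := by
        calc (p.1 * 2 ^ k) * N = p.1 * (2 ^ k * N) := by ring
          _ ≤ p.1 * p.2 := Nat.mul_le_mul_left _ (by omega)
          _ ≤ G * N ^ 2 := hp4
          _ = (G * N) * N := by ring
      exact Nat.le_of_mul_le_mul_right h8 (by omega)
    have hterm : ∀ p ∈ V, 1 / (p.2 : ℝ) ≤ 1 / ((2 : ℝ) ^ k * N) := by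
      intro p hp
      obtain ⟨h4, _⟩ := hmem p hp
      apply one_div_le_one_div_of_le (by positivity)
      have : 2 ^ k * N ≤ p.2 := by omega
      exact_mod_cast this
    rcases Nat.eq_zero_or_pos (G * N / 2 ^ k) with hm | hm
    · have hVe : V = ∅ := by
        rw [Finset.eq_empty_iff_forall_notMem]
        intro p hp
        obtain ⟨_, _, h6, h7, _⟩ := hmem p hp
        omega
      rw [hVe, Finset.sum_empty]
      positivity
    · have hcard := hE (G * N / 2 ^ k) (2 ^ (k + 1) * N) hm (Nat.mul_pos (by positivity) hN) V (fun p hp => by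
        obtain ⟨h4, h5, h6, h7, h8⟩ := hmem p hp
        exact ⟨h6, h7, by omega, h5, h8⟩)
      have hsqrt : Real.sqrt (((G * N / 2 ^ k : ℕ) : ℝ) * ((2 ^ (k + 1) * N : ℕ) : ℝ)) ≤
          Real.sqrt (2 * G) * N := by
        have h12 : ((G * N / 2 ^ k : ℕ) : ℝ) ≤ ((G * N : ℕ) : ℝ) / ((2 ^ k : ℕ) : ℝ) :=
          Nat.cast_div_le
        have h13 : ((G * N / 2 ^ k : ℕ) : ℝ) * ((2 ^ (k + 1) * N : ℕ) : ℝ) ≤
            (2 * G) * (N : ℝ) ^ 2 := by
          calc ((G * N / 2 ^ k : ℕ) : ℝ) * ((2 ^ (k + 1) * N : ℕ) : ℝ) ≤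
            ((G * N : ℕ) : ℝ) / ((2 ^ k : ℕ) : ℝ) * ((2 ^ (k + 1) * N : ℕ) : ℝ) :=
              mul_le_mul_of_nonneg_right h12 (Nat.cast_nonneg _)
            _ = (2 * G) * (N : ℝ) ^ 2 := by
              push_cast
              have : (2 : ℝ) ^ k ≠ 0 := by positivity
              field_simp
              ring
        refine (Real.sqrt_le_sqrt h13).trans ?_
        rw [Real.sqrt_mul (by positivity), Real.sqrt_sq hNpos.le]
      calc ∑ p ∈ V, 1 / (p.2 : ℝ) ≤ ∑ p ∈ V, 1 / ((2 : ℝ) ^ k * N) :=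
            Finset.sum_le_sum hterm
        _ = V.card * (1 / ((2 : ℝ) ^ k * N)) := by rw [Finset.sum_const, nsmul_eq_mul]
        _ ≤ (C * (Real.sqrt (2 * G) * N)) * (1 / ((2 : ℝ) ^ k * N)) := by
            apply mul_le_mul_of_nonneg_right _ (by positivity)
            exact hcard.trans (mul_le_mul_of_nonneg_left hsqrt hC0)
        _ = (C * Real.sqrt (2 * G)) * (1 / 2) ^ k := by
            rw [one_div_pow]
            have : (2 : ℝ) ^ k ≠ 0 := by positivity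
            field_simp
  calc ∑ k ∈ U.image g, ∑ p ∈ U with g p = k, 1 / (p.2 : ℝ) ≤
      ∑ k ∈ U.image g, (C * Real.sqrt (2 * G)) * (1 / 2) ^ k := Finset.sum_le_sum cell
    _ = (C * Real.sqrt (2 * G)) * ∑ k ∈ U.image g, (1 / 2 : ℝ) ^ k := by rw [Finset.mul_sum]
    _ ≤ (C * Real.sqrt (2 * G)) * 2 := by
        apply mul_le_mul_of_nonneg_left _ (by positivity)
        exact sum_le_hasSum _ (fun i _ => by positivity) hasSum_geometric_two
    _ = _ := by ring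

open scoped Classical in
/-- the pairs at scale `N` -/
noncomputable def PP (a b e : ℤ) (q u N : ℕ) : Finset (ℕ × ℕ) :=
  ((Icc 1 N) ×ˢ (Icc 1 N)).filter (fun p : ℕ × ℕ =>
    ∃ m : ℕ, (p.1 * p.2 : ℤ) = a * (m : ℤ) ^ 2 + b * m + e ∧ m ≡ u [MOD q])

lemma mem_PP {q u N : ℕ} {p : ℕ × ℕ} : p ∈ PP a b e q u N ↔ 1 ≤ p.1 ∧ p.1 ≤ N ∧ 1 ≤ p.2 ∧
    p.2 ≤ N ∧ ∃ m : ℕ, (p.1 * p.2 : ℤ) = g a b e m ∧ m ≡ u [MOD q] := by
  classical
  unfold PP
  rw [mem_filter, mem_product, mem_Icc, mem_Icc]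
  constructor
  · rintro ⟨⟨⟨h1, h2⟩, h3, h4⟩, h5⟩
    exact ⟨h1, h2, h3, h4, h5⟩
  · rintro ⟨h1, h2, h3, h4, h5⟩
    exact ⟨⟨⟨h1, h2⟩, h3, h4⟩, h5⟩

/-- the weight -/
noncomputable def wt (p : ℕ × ℕ) : ℝ := 1 / ((max p.1 p.2 : ℕ) : ℝ)

lemma wt_nonneg (p : ℕ × ℕ) : 0 ≤ wt p := by unfold wt; positivity

lemma wt_le_one {p : ℕ × ℕ} (h : 1 ≤ p.1) : wt p ≤ 1 := by
  unfold wt
  rw [div_le_one (by exact_mod_cast lt_of_lt_of_le (by omega : 0 < p.1) (le_max_left _ _))]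
  exact_mod_cast h.trans (le_max_left _ _)

lemma wt_le_right {p : ℕ × ℕ} (h : 1 ≤ p.2) : wt p ≤ 1 / (p.2 : ℝ) := by
  unfold wt
  apply one_div_le_one_div_of_le (by exact_mod_cast h)
  exact_mod_cast le_max_right p.1 p.2

lemma wt_le_left {p : ℕ × ℕ} (h : 1 ≤ p.1) : wt p ≤ 1 / (p.1 : ℝ) := by
  unfold wt
  apply one_div_le_one_div_of_le (by exact_mod_cast h)
  exact_mod_cast le_max_left p.1 p.2

lemma abs_sum_le {φ : ℕ × ℕ → ℝ} (hφ : ∀ p, |φ p| ≤ 1) (U : Finset (ℕ × ℕ)) :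
    |∑ p ∈ U, φ p * wt p| ≤ ∑ p ∈ U, wt p := by
  refine (abs_sum_le_sum_abs _ _).trans (sum_le_sum fun p _ => ?_)
  rw [abs_mul, abs_of_nonneg (wt_nonneg p)]
  exact mul_le_of_le_one_left (wt_nonneg p) (hφ p)

/-- comparison of the sum over all the divisors with the sum over the pairs -/
lemma compare (htt : t = 0 ∨ t = 1) (h3 : S_SCNT t c) (ha : 0 < a)
    (hdisc : b ^ 2 - 4 * a * e = t ^ 2 - 4 * c) (hd : 0 < 4 * a * e - b ^ 2) (q u : ℕ) :
    ∃ C5 : ℝ, 0 ≤ C5 ∧ (∀ N : ℕ, 1 ≤ N → ((PP a b e q u N).card : ℝ) ≤ C5 * N) ∧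
      ∀ φ : ℕ × ℕ → ℝ, (∀ p, |φ p| ≤ 1) → ∀ N : ℕ, 1 ≤ N →
      |∑ m ∈ (Icc 1 N).filter (fun m => m ≡ u [MOD q]), ∑ d ∈ Nat.divisors (qv a b e m),
          φ (d, qv a b e m / d) * wt (d, qv a b e m / d) -
        ∑ p ∈ PP a b e q u N, φ p * wt p| ≤ C5 := by
  classical
  obtain ⟨C, hC0, hC⟩ := cnt htt h3 ha hdisc
  obtain ⟨G, hG⟩ : ∃ G, G = a.natAbs + b.natAbs + e.natAbs := ⟨_, rfl⟩
  have hG1 : 1 ≤ G := by omega
  obtain ⟨G2, hG2⟩ : ∃ G2, G2 = ∑ m ∈ range (b.natAbs + 1), qv a b e m := ⟨_, rfl⟩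
  have hqG2 : ∀ m, m ≤ b.natAbs → qv a b e m ≤ G2 := by
    intro m hm
    rw [hG2]
    exact single_le_sum (f := fun m => qv a b e m) (fun i _ => Nat.zero_le _)
      (mem_range.2 (by omega))
  obtain ⟨C6, hC6⟩ : ∃ C6, C6 = ∑ m ∈ range (b.natAbs + 1), (Nat.divisors (qv a b e m)).card :=
    ⟨_, rfl⟩
  have hqpos : ∀ m, 0 < qv a b e m := by
    intro m
    have h1 := qv_eq ha hd m
    have h2 := g_pos ha hd m
    rw [← h1] at h2
    exact_mod_cast h2
  -- the remaining pairs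
  obtain ⟨E, hE⟩ : ∃ E : ℕ × ℕ → Prop, E = fun p => ∃ m : ℕ, b.natAbs < m ∧
    (p.1 * p.2 : ℤ) = g a b e m := ⟨_, rfl⟩
  obtain ⟨E', hE'⟩ : ∃ E' : ℕ × ℕ → Prop, E' = fun p => ∃ m : ℕ, b.natAbs < m ∧
    m ≡ u [MOD q] ∧ (p.1 * p.2 : ℤ) = g a b e m := ⟨_, rfl⟩
  have hEE : ∀ p, E' p → E p := by
    intro p hp
    rw [hE'] at hp
    rw [hE]
    obtain ⟨m, h1, -, h2⟩ := hp
    exact ⟨m, h1, h2⟩
  have hR : ∀ N, ((PP a b e q u N).filter (fun p => ¬ E' p)).card ≤ G2 * G2 := by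
    intro N
    have h1 : (PP a b e q u N).filter (fun p => ¬ E' p) ⊆ (Icc 1 G2) ×ˢ (Icc 1 G2) := by
      intro p hp
      rw [mem_filter, mem_PP] at hp
      obtain ⟨⟨p1, p2, p3, p4, m, hm1, hm2⟩, hp2⟩ := hp
      have h2 : m ≤ b.natAbs := by
        by_contra hcon
        apply hp2
        rw [hE']
        exact ⟨m, by omega, hm2, hm1⟩
      have h4 : p.1 * p.2 = qv a b e m := by
        have := qv_eq ha hd m
        rw [← hm1] at this
        exact_mod_cast this.symm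
      have h5 := hqG2 m h2
      rw [mem_product, mem_Icc, mem_Icc]
      have h6 : p.1 ≤ p.1 * p.2 := Nat.le_mul_of_pos_right _ p3
      have h7 : p.2 ≤ p.1 * p.2 := Nat.le_mul_of_pos_left _ p1
      exact ⟨⟨p1, by omega⟩, ⟨p3, by omega⟩⟩
    refine (card_le_card h1).trans ?_
    rw [card_product, Nat.card_Icc, Nat.add_sub_cancel]
  have hA2 : ∀ N : ℕ, 1 ≤ N → (((PP a b e q u N).filter (fun p => E' p)).card : ℝ) ≤ C * N := by
    intro N hN
    have h1 := hC N N hN hN ((PP a b e q u N).filter (fun p => E' p)) (fun p hp => by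
      rw [mem_filter, mem_PP] at hp
      obtain ⟨⟨p1, p2, p3, p4, -⟩, hp2⟩ := hp
      have := hEE p hp2
      rw [hE] at this
      exact ⟨p1, p2, p3, p4, this⟩)
    rwa [Real.sqrt_mul_self (Nat.cast_nonneg _)] at h1
  refine ⟨C6 + 2 * (2 * (C * Real.sqrt (2 * G))) + 2 * C + G2 * G2, by positivity, ?_, ?_⟩
  · intro N hN
    have h1 := card_filter_add_card_filter_not (s := PP a b e q u N) (fun p => E' p)
    have h2 := hR N
    have h3 := hA2 N hN
    have hN' : (1 : ℝ) ≤ N := by exact_mod_cast hN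
    have h4 : ((PP a b e q u N).card : ℝ) ≤ C * N + G2 * G2 := by
      rw [← h1]
      push_cast
      have : (((PP a b e q u N).filter (fun p => ¬ E' p)).card : ℝ) ≤ G2 * G2 := by
        exact_mod_cast h2
      linarith
    refine h4.trans ?_
    have h5 : (0 : ℝ) ≤ (C6 + 2 * (2 * (C * Real.sqrt (2 * G))) + C) * N := by positivity
    have h6 : (G2 * G2 : ℝ) ≤ G2 * G2 * N := le_mul_of_one_le_right (by positivity) hN'
    nlinarith
  · intro φ hφ N hN
    have hNR : (0 : ℝ) < N := by exact_mod_cast hN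
    obtain ⟨F, hF⟩ : ∃ F : ℕ → ℝ, F = fun m => ∑ d ∈ Nat.divisors (qv a b e m),
      φ (d, qv a b e m / d) * wt (d, qv a b e m / d) := ⟨_, rfl⟩
    obtain ⟨S, hS⟩ : ∃ S, S = (Icc 1 N).filter (fun m => m ≡ u [MOD q]) := ⟨_, rfl⟩
    rw [← hS]
    have e0 : ∑ m ∈ S, ∑ d ∈ Nat.divisors (qv a b e m),
        φ (d, qv a b e m / d) * wt (d, qv a b e m / d) =
        ∑ m ∈ S.filter (fun m => b.natAbs < m), F m +
        ∑ m ∈ S.filter (fun m => ¬ b.natAbs < m), F m := by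
      rw [sum_filter_add_sum_filter_not, hF]
    -- the small ones
    have e1 : |∑ m ∈ S.filter (fun m => ¬ b.natAbs < m), F m| ≤ C6 := by
      have h1 : ∀ m, |F m| ≤ (Nat.divisors (qv a b e m)).card := by
        intro m
        rw [hF]
        simp only
        refine (abs_sum_le_sum_abs _ _).trans ?_
        refine (sum_le_card_nsmul _ _ 1 fun d hdm => ?_).trans (by simp)
        rw [abs_mul, abs_of_nonneg (wt_nonneg _)]
        exact mul_le_one₀ (hφ _) (wt_nonneg _) (wt_le_one (Nat.pos_of_mem_divisors hdm))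
      refine (abs_sum_le_sum_abs _ _).trans ((sum_le_sum fun m _ => h1 m).trans ?_)
      rw [hC6]
      push_cast
      refine sum_le_sum_of_subset_of_nonneg ?_ (fun _ _ _ => Nat.cast_nonneg _)
      intro m hm
      rw [mem_filter] at hm
      rw [mem_range]
      omega
    -- the large ones
    obtain ⟨A1, hA1⟩ : ∃ A1 : Finset (ℕ × ℕ), A1 = ((S.filter (fun m => b.natAbs < m)).sigma
      (fun m => Nat.divisors (qv a b e m))).image (fun x => (x.2, qv a b e x.1 / x.2)) :=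
      ⟨_, rfl⟩
    have hmul : ∀ m d : ℕ, d ∈ Nat.divisors (qv a b e m) → d * (qv a b e m / d) = qv a b e m :=
      fun m d h => Nat.mul_div_cancel' (Nat.dvd_of_mem_divisors h)
    have e2 : ∑ m ∈ S.filter (fun m => b.natAbs < m), F m = ∑ p ∈ A1, φ p * wt p := by
      rw [hA1, sum_image, sum_sigma, hF]
      rintro ⟨m, d⟩ hx ⟨m', d'⟩ hx' h
      rw [mem_coe, mem_sigma, mem_filter] at hx hx'
      simp only [Prod.mk.injEq] at h hx hx'
      obtain ⟨h1, h2⟩ := h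
      have h4 : qv a b e m = qv a b e m' := by
        rw [← hmul m d hx.2, ← hmul m' d' hx'.2, h2, h1]
      have h5 : m = m' := by
        apply g_inj ha hx.1.2 hx'.1.2
        rw [← qv_eq ha hd, ← qv_eq ha hd, h4]
      subst h5
      subst h1
      rfl
    have hmemA1 : ∀ p ∈ A1, 1 ≤ p.1 ∧ 1 ≤ p.2 ∧ ∃ m : ℕ, b.natAbs < m ∧ 1 ≤ m ∧ m ≤ N ∧
        m ≡ u [MOD q] ∧ (p.1 * p.2 : ℤ) = g a b e m := by
      intro p hp
      rw [hA1, mem_image] at hp
      obtain ⟨⟨m, d⟩, hx, rfl⟩ := hp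
      rw [mem_sigma, mem_filter, hS, mem_filter, mem_Icc] at hx
      simp only at hx ⊢
      have h1 := hmul m d hx.2
      have h2 := hqpos m
      refine ⟨Nat.pos_of_mem_divisors hx.2, Nat.pos_of_ne_zero fun h0 => ?_, m, hx.1.2,
        hx.1.1.1.1, hx.1.1.1.2, hx.1.1.2, ?_⟩
      · rw [h0, mul_zero] at h1
        omega
      · rw [← qv_eq ha hd m]
        exact_mod_cast h1
    have hA1mem : ∀ p : ℕ × ℕ, 1 ≤ p.1 → ∀ m : ℕ, b.natAbs < m → m ≤ N → m ≡ u [MOD q] →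
        (p.1 * p.2 : ℤ) = g a b e m → p ∈ A1 := by
      intro p hp m h1 h2 h4 h5
      have h6 : p.1 * p.2 = qv a b e m := by
        have := qv_eq ha hd m
        rw [← h5] at this
        exact_mod_cast this.symm
      rw [hA1, mem_image]
      refine ⟨⟨m, p.1⟩, ?_, ?_⟩
      · rw [mem_sigma, mem_filter, hS, mem_filter, mem_Icc]
        refine ⟨⟨⟨⟨Nat.succ_le_of_lt (lt_of_le_of_lt (Nat.zero_le _) h1), h2⟩, h4⟩, h1⟩, ?_⟩
        rw [Nat.mem_divisors]
        exact ⟨⟨p.2, h6.symm⟩, (hqpos m).ne'⟩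
      · simp only
        rw [← h6, Nat.mul_div_cancel_left _ hp]
    -- comparison
    obtain ⟨A2, hA2d⟩ : ∃ A2, A2 = (PP a b e q u N).filter (fun p => E' p) := ⟨_, rfl⟩
    have e3 : ∑ p ∈ PP a b e q u N, φ p * wt p = ∑ p ∈ A2, φ p * wt p +
        ∑ p ∈ (PP a b e q u N).filter (fun p => ¬ E' p), φ p * wt p := by
      rw [hA2d, sum_filter_add_sum_filter_not]
    have e4 : |∑ p ∈ (PP a b e q u N).filter (fun p => ¬ E' p), φ p * wt p| ≤ G2 * G2 := by
      refine (abs_sum_le hφ _).trans ?_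
      refine (sum_le_card_nsmul _ _ 1 fun p hp => ?_).trans ?_
      · rw [mem_filter, mem_PP] at hp
        exact wt_le_one hp.1.1
      · rw [nsmul_eq_mul, mul_one]
        exact_mod_cast hR N
    have e5 : ∑ p ∈ A1 \ A2, wt p ≤ 2 * (2 * (C * Real.sqrt (2 * G))) := by
      have hsplit : A1 \ A2 ⊆ (A1.filter (fun p => N < p.2)) ∪ (A1.filter (fun p => N < p.1)) := by
        intro p hp
        rw [Finset.mem_sdiff] at hp
        rw [mem_union, mem_filter, mem_filter]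
        by_contra hcon
        have h1 : ¬ N < p.2 := fun h => hcon (Or.inl ⟨hp.1, h⟩)
        have h2 : ¬ N < p.1 := fun h => hcon (Or.inr ⟨hp.1, h⟩)
        obtain ⟨p1, p2, m, m1, m2, m3, m4, m5⟩ := hmemA1 p hp.1
        apply hp.2
        rw [hA2d, mem_filter, mem_PP]
        refine ⟨⟨p1, by omega, p2, by omega, m, m5, m4⟩, ?_⟩
        rw [hE']
        exact ⟨m, m1, m4, m5⟩
      have hGN : ∀ p ∈ A1, p.1 * p.2 ≤ G * N ^ 2 ∧ E p := by
        intro p hp
        obtain ⟨p1, p2, m, m1, m2, m3, m4, m5⟩ := hmemA1 p hp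
        refine ⟨?_, by rw [hE]; exact ⟨m, m1, m5⟩⟩
        have h1 := g_upper a b e m2
        rw [← hG, ← m5] at h1
        have h2 : p.1 * p.2 ≤ G * m ^ 2 := by exact_mod_cast h1
        exact h2.trans (Nat.mul_le_mul_left _ (Nat.pow_le_pow_left m3 2))
      have t1 := tail hC0 E (fun x y hx hy U hU => hC x y hx hy U (fun p hp => by
          have := hU p hp
          rw [hE] at this
          exact this)) G N hG1 hN (A1.filter (fun p => N < p.2)) (fun p hp => by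
          rw [mem_filter] at hp
          obtain ⟨h1, h2⟩ := hGN p hp.1
          exact ⟨(hmemA1 p hp.1).1, hp.2, h1, h2⟩)
      have t2 := tail hC0 E (fun x y hx hy U hU => hC x y hx hy U (fun p hp => by
          have := hU p hp
          rw [hE] at this
          exact this)) G N hG1 hN ((A1.filter (fun p => N < p.1)).image Prod.swap) (fun p hp => by
          rw [mem_image] at hp
          obtain ⟨p', hp', rfl⟩ := hp
          rw [mem_filter] at hp'
          obtain ⟨h1, h2⟩ := hGN p' hp'.1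
          refine ⟨(hmemA1 p' hp'.1).2.1, hp'.2, ?_, ?_⟩
          · rw [Prod.fst_swap, Prod.snd_swap, mul_comm]
            exact h1
          · rw [hE] at h2 ⊢
            obtain ⟨m, m1, m2⟩ := h2
            refine ⟨m, m1, ?_⟩
            rw [Prod.fst_swap, Prod.snd_swap, mul_comm]
            exact m2)
      rw [sum_image (Prod.swap_injective.injOn)] at t2
      have u1 : ∑ p ∈ A1.filter (fun p => N < p.2), wt p ≤
          ∑ p ∈ A1.filter (fun p => N < p.2), 1 / (p.2 : ℝ) :=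
        sum_le_sum fun p hp => wt_le_right (hmemA1 p (mem_filter.1 hp).1).2.1
      have u2 : ∑ p ∈ A1.filter (fun p => N < p.1), wt p ≤
          ∑ p ∈ A1.filter (fun p => N < p.1), 1 / ((Prod.swap p).2 : ℝ) :=
        sum_le_sum fun p hp => wt_le_left (hmemA1 p (mem_filter.1 hp).1).1
      calc ∑ p ∈ A1 \ A2, wt p ≤
          ∑ p ∈ (A1.filter (fun p => N < p.2)) ∪ (A1.filter (fun p => N < p.1)), wt p :=
            sum_le_sum_of_subset_of_nonneg hsplit (fun p _ _ => wt_nonneg p)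
        _ ≤ ∑ p ∈ A1.filter (fun p => N < p.2), wt p +
            ∑ p ∈ A1.filter (fun p => N < p.1), wt p := by
            rw [← sum_union_inter]
            exact le_add_of_nonneg_right (sum_nonneg fun p _ => wt_nonneg p)
        _ ≤ _ := by linarith
    have e6 : ∑ p ∈ A2 \ A1, wt p ≤ 2 * C := by
      have h1 : ∀ p ∈ A2 \ A1, wt p ≤ 2 / N := by
        intro p hp
        rw [Finset.mem_sdiff, hA2d, mem_filter, mem_PP, hE'] at hp
        obtain ⟨⟨⟨p1, p2, p3, p4, -⟩, m, m1, m4, m5⟩, hp2⟩ := hp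
        have hmN : N < m := by
          by_contra hcon
          exact hp2 (hA1mem p p1 m m1 (by omega) m4 m5)
        have h2 := g_lower ha hd m1
        rw [← m5] at h2
        have h4 : m ^ 2 ≤ 4 * (p.1 * p.2) := by exact_mod_cast h2
        have h5 : p.1 * p.2 ≤ max p.1 p.2 * max p.1 p.2 :=
          Nat.mul_le_mul (le_max_left _ _) (le_max_right _ _)
        have h6 : N ≤ 2 * max p.1 p.2 := by
          by_contra hcon
          rw [not_le] at hcon
          have h7 : (2 * max p.1 p.2) * (2 * max p.1 p.2) < N * N := Nat.mul_self_lt_mul_self hcon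
          nlinarith
        unfold wt
        have h8 : (0 : ℝ) < ((max p.1 p.2 : ℕ) : ℝ) := by
          exact_mod_cast lt_of_lt_of_le (by omega : 0 < p.1) (le_max_left _ _)
        rw [div_le_div_iff₀ h8 hNR]
        have h9 : (N : ℝ) ≤ 2 * ((max p.1 p.2 : ℕ) : ℝ) := by exact_mod_cast h6
        linarith
      have h2 : ((A2 \ A1).card : ℝ) ≤ C * N := by
        refine le_trans ?_ (hA2 N hN)
        rw [← hA2d]
        exact_mod_cast card_le_card sdiff_subset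
      calc ∑ p ∈ A2 \ A1, wt p ≤ ((A2 \ A1).card) • (2 / (N : ℝ)) := sum_le_card_nsmul _ _ _ h1
        _ = (A2 \ A1).card * (2 / (N : ℝ)) := nsmul_eq_mul _ _
        _ ≤ (C * N) * (2 / (N : ℝ)) := mul_le_mul_of_nonneg_right h2 (by positivity)
        _ = 2 * C := by field_simp
    have e7 : ∑ p ∈ A1, φ p * wt p - ∑ p ∈ A2, φ p * wt p =
        ∑ p ∈ A1 \ A2, φ p * wt p - ∑ p ∈ A2 \ A1, φ p * wt p :=
      (sum_sdiff_sub_sum_sdiff).symm
    have e8 := abs_sum_le hφ (A1 \ A2)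
    have e9 := abs_sum_le hφ (A2 \ A1)
    rw [e0, e2, e3]
    have e10 : ∑ p ∈ A1, φ p * wt p + ∑ m ∈ S.filter (fun m => ¬ b.natAbs < m), F m -
        (∑ p ∈ A2, φ p * wt p + ∑ p ∈ (PP a b e q u N).filter (fun p => ¬ E' p), φ p * wt p) =
        (∑ p ∈ A1 \ A2, φ p * wt p - ∑ p ∈ A2 \ A1, φ p * wt p) +
        (∑ m ∈ S.filter (fun m => ¬ b.natAbs < m), F m) -
        ∑ p ∈ (PP a b e q u N).filter (fun p => ¬ E' p), φ p * wt p := by
      rw [← e7]
      ring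
    rw [e10]
    rw [abs_le] at e1 e4 e8 e9 ⊢
    constructor <;> linarith [e1.1, e1.2, e4.1, e4.2, e8.1, e8.2, e9.1, e9.2]

/-! ### Summation over the scales -/

lemma tele (M N : ℕ) (hM : 1 ≤ M) (hMN : M ≤ N) :
    ∑ X ∈ Icc 1 N, (if M ≤ X then 1 / ((X : ℝ) * (X + 1)) else 0) =
      1 / (M : ℝ) - 1 / ((N : ℝ) + 1) := by
  have hM0 : (0 : ℝ) < M := by exact_mod_cast hM
  induction N, hMN using Nat.le_induction with
  | base =>
    rw [sum_eq_single M]
    · rw [if_pos le_rfl]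
      field_simp
      ring
    · intro X hX hne
      rw [mem_Icc] at hX
      rw [if_neg (by omega)]
    · intro h
      exact absurd (mem_Icc.2 ⟨hM, le_rfl⟩) h
  | succ N hMN ih =>
    rw [sum_Icc_succ_top (by omega), ih, if_pos (by omega)]
    have hN0 : (0 : ℝ) ≤ N := Nat.cast_nonneg _
    push_cast
    field_simp
    ring

lemma PP_filter {q u X N : ℕ} (hXN : X ≤ N) :
    PP a b e q u X = (PP a b e q u N).filter (fun p => max p.1 p.2 ≤ X) := by
  ext p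
  rw [mem_filter, mem_PP, mem_PP]
  constructor
  · rintro ⟨h1, h2, h3, h4, h5⟩
    exact ⟨⟨h1, h2.trans hXN, h3, h4.trans hXN, h5⟩, max_le h2 h4⟩
  · rintro ⟨⟨h1, h2, h3, h4, h5⟩, h6⟩
    exact ⟨h1, (le_max_left _ _).trans h6, h3, (le_max_right _ _).trans h6, h5⟩

lemma abel (q u N : ℕ) (ψ : ℕ × ℕ → ℝ) :
    ∑ p ∈ PP a b e q u N, ψ p * wt p =
      ∑ X ∈ Icc 1 N, 1 / ((X : ℝ) * (X + 1)) * ∑ p ∈ PP a b e q u X, ψ p +
        (∑ p ∈ PP a b e q u N, ψ p) / ((N : ℝ) + 1) := by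
  have h1 : ∀ X ∈ Icc 1 N, 1 / ((X : ℝ) * (X + 1)) * ∑ p ∈ PP a b e q u X, ψ p =
      ∑ p ∈ PP a b e q u N, ψ p * (if max p.1 p.2 ≤ X then 1 / ((X : ℝ) * (X + 1)) else 0) := by
    intro X hX
    rw [PP_filter (mem_Icc.1 hX).2, sum_filter, mul_sum]
    refine sum_congr rfl fun p _ => ?_
    split_ifs
    · ring
    · simp
  rw [sum_congr rfl h1, sum_comm, sum_div, ← sum_add_distrib]
  refine sum_congr rfl fun p hp => ?_
  rw [mem_PP] at hp
  rw [← mul_sum, tele _ _ (hp.1.trans (le_max_left _ _)) (max_le hp.2.1 hp.2.2.2.1)]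
  unfold wt
  ring

/-- the function -/
noncomputable def psi (k j : ℕ) (p : ℕ × ℕ) : ℝ :=
  (if cardFactors p.1 + cardFactors p.2 ≡ j [MOD k] then 1 else 0) - 1 / (k : ℝ)

lemma abs_psi {k : ℕ} (hk : 1 ≤ k) (j : ℕ) (p : ℕ × ℕ) : |psi k j p| ≤ 1 := by
  have h0 : (0 : ℝ) < k := by exact_mod_cast hk
  have h1 : 1 / (k : ℝ) ≤ 1 := by
    rw [div_le_one h0]
    exact_mod_cast hk
  have h2 : 0 < 1 / (k : ℝ) := by positivity
  unfold psi
  rw [abs_le]
  split_ifs <;> constructor <;> linarith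

lemma mem_SV {q u r X : ℕ} {p : ℕ × ℕ} : p ∈ SV a b e q u r 0 1 0 1 X ↔
    p ∈ PP a b e q u X ∧ p.1 ≡ r [MOD q] := by
  classical
  unfold SV
  rw [mem_filter, mem_product, one_mul, Nat.floor_natCast, mem_Icc, mem_Icc, mem_PP]
  constructor
  · rintro ⟨⟨⟨h1, h2⟩, h3, h4⟩, -, -, m, h5, h6, h7⟩
    exact ⟨⟨h1, h2, h3, h4, m, h5, h6⟩, h7⟩
  · rintro ⟨⟨h1, h2, h3, h4, m, h5, h6⟩, h7⟩
    refine ⟨⟨⟨h1, h2⟩, h3, h4⟩, ?_, ?_, m, h5, h6, h7⟩
    · rw [zero_mul]
      exact_mod_cast h1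
    · rw [zero_mul]
      exact_mod_cast h3

lemma mod_aux {k : ℕ} (hk : 1 ≤ k) (j x y i : ℕ) (hi : x ≡ i [MOD k]) :
    y ≡ j + (k - 1) * i [MOD k] ↔ x + y ≡ j [MOD k] := by
  have h1 : i + (j + (k - 1) * i) = j + k * i := by
    obtain ⟨k', rfl⟩ : ∃ k', k = k' + 1 := ⟨k - 1, by omega⟩
    simp only [Nat.add_sub_cancel]
    ring
  have h2 : j + k * i ≡ j [MOD k] := by
    unfold Nat.ModEq
    simp
  constructor
  · intro h
    have h3 := hi.add h
    rw [h1] at h3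
    exact h3.trans h2
  · intro h
    have h3 : i + y ≡ i + (j + (k - 1) * i) [MOD k] := by
      rw [h1]
      exact ((hi.add_right y).symm.trans h).trans h2.symm
    exact Nat.ModEq.add_left_cancel' i h3

lemma D_le {k q : ℕ} (hk : 1 ≤ k) (hq : 1 ≤ q) (u j X : ℕ) :
    |∑ p ∈ PP a b e q u X, psi k j p| ≤ ∑ r ∈ range q, ∑ i ∈ range k,
      devV a b e k q u r i (j + (k - 1) * i) 0 1 0 1 X := by
  classical
  have hk0 : (0 : ℝ) < k := by exact_mod_cast hk
  have h1 : ∀ p : ℕ × ℕ, psi k j p = ∑ r ∈ range q, ∑ i ∈ range k,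
      (if p.1 ≡ r [MOD q] then ((if cardFactors p.1 ≡ i [MOD k] ∧
        cardFactors p.2 ≡ j + (k - 1) * i [MOD k] then 1 else 0) - 1 / (k : ℝ) ^ 2) else 0) := by
    intro p
    rw [sum_eq_single (p.1 % q)]
    · have hr : p.1 ≡ p.1 % q [MOD q] := (Nat.mod_modEq _ _).symm
      simp only [if_pos hr]
      rw [sum_sub_distrib, sum_const, card_range, nsmul_eq_mul]
      rw [sum_eq_single (cardFactors p.1 % k)]
      · have hi : cardFactors p.1 ≡ cardFactors p.1 % k [MOD k] := (Nat.mod_modEq _ _).symm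
        unfold psi
        congr 1
        · by_cases h : cardFactors p.1 + cardFactors p.2 ≡ j [MOD k]
          · rw [if_pos h, if_pos ⟨hi, (mod_aux hk j _ _ _ hi).2 h⟩]
          · rw [if_neg h, if_neg]
            rintro ⟨-, h'⟩
            exact h ((mod_aux hk j _ _ _ hi).1 h')
        · field_simp
      · intro i hi hne
        rw [if_neg]
        rintro ⟨h', -⟩
        apply hne
        have h2 : cardFactors p.1 % k = i % k := h'
        rw [Nat.mod_eq_of_lt (mem_range.1 hi)] at h2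
        exact h2.symm
      · intro h
        exact absurd (mem_range.2 (Nat.mod_lt _ hk)) h
    · intro r hr hne
      apply sum_eq_zero
      intro i _
      rw [if_neg]
      intro h'
      apply hne
      have h2 : p.1 % q = r % q := h'
      rw [Nat.mod_eq_of_lt (mem_range.1 hr)] at h2
      exact h2.symm
    · intro h
      exact absurd (mem_range.2 (Nat.mod_lt _ hq)) h
  rw [sum_congr rfl fun p _ => h1 p, sum_comm]
  refine (abs_sum_le_sum_abs _ _).trans (sum_le_sum fun r _ => ?_)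
  rw [sum_comm]
  refine (abs_sum_le_sum_abs _ _).trans (sum_le_sum fun i _ => ?_)
  apply le_of_eq
  unfold devV
  congr 1
  have h2 : SV a b e q u r 0 1 0 1 X = (PP a b e q u X).filter (fun p => p.1 ≡ r [MOD q]) := by
    ext p
    rw [mem_SV, mem_filter]
  rw [← sum_filter, ← h2, sum_sub_distrib, sum_boole, sum_const, nsmul_eq_mul,
    mul_comm ((SV a b e q u r 0 1 0 1 X).card : ℝ)]

lemma harm_le (N : ℕ) : ∑ X ∈ Icc 1 N, 1 / (X : ℝ) ≤ 1 + Real.log N := by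
  have h := harmonic_le_one_add_log N
  rw [harmonic_eq_sum_Icc] at h
  push_cast at h
  simpa [one_div] using h

lemma harm_ge {N : ℕ} (hN : 1 ≤ N) : Real.log N ≤ ∑ X ∈ Icc 1 N, 1 / (X : ℝ) := by
  have h := log_add_one_le_harmonic N
  rw [harmonic_eq_sum_Icc] at h
  push_cast at h
  have h2 : Real.log N ≤ Real.log ((N : ℝ) + 1) := by
    apply Real.log_le_log
    · exact_mod_cast hN
    · linarith
  refine h2.trans ?_
  simpa [one_div] using h

lemma ev_log (A B : ℝ) (hA : 0 < A) : ∀ᶠ N : ℕ in atTop, B ≤ A * Real.log N := by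
  have h : Tendsto (fun N : ℕ => A * Real.log N) atTop atTop :=
    (Real.tendsto_log_atTop.comp tendsto_natCast_atTop_atTop).const_mul_atTop hA
  exact h.eventually_ge_atTop B

lemma scale_sum (D : ℕ → ℝ) (ι : Finset (ℕ × ℕ)) (dev : ℕ × ℕ → ℕ → ℝ) {C5 : ℝ} (hC5 : 0 ≤ C5)
    (h1 : ∀ X, 1 ≤ X → |D X| ≤ C5 * X) (h2 : ∀ X, |D X| ≤ ∑ y ∈ ι, dev y X)
    (h3 : ∀ ε : ℝ, 0 < ε → ∀ y ∈ ι, Tendsto (fun N : ℕ => (∑ X ∈ (Icc 1 N).filter
      (fun X : ℕ => ε * X < dev y X), 1 / (X : ℝ)) / Real.log N) atTop (nhds 0)) (ε : ℝ)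
    (hε : 0 < ε) : ∀ᶠ N : ℕ in atTop,
      |∑ X ∈ Icc 1 N, 1 / ((X : ℝ) * (X + 1)) * D X + D N / ((N : ℝ) + 1)| ≤
        ε * Real.log N := by
  obtain ⟨K, hK⟩ : ∃ K : ℝ, K = (ι.card : ℝ) + 1 := ⟨_, rfl⟩
  have hK1 : (ι.card : ℝ) ≤ K := by rw [hK]; linarith
  have hK0 : 0 < K := by rw [hK]; positivity
  obtain ⟨δ, hδ⟩ : ∃ δ : ℝ, δ = ε / 4 / K := ⟨_, rfl⟩
  have hδ0 : 0 < δ := by rw [hδ]; positivity
  obtain ⟨η, hη⟩ : ∃ η : ℝ, η = ε / 4 / (K * (C5 + 1)) := ⟨_, rfl⟩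
  have hη0 : 0 < η := by rw [hη]; positivity
  have h4 : ∀ᶠ N : ℕ in atTop, ∀ y ∈ ι, (∑ X ∈ (Icc 1 N).filter
      (fun X : ℕ => δ * X < dev y X), 1 / (X : ℝ)) / Real.log N < η := by
    rw [eventually_all_finset]
    intro y hy
    exact (h3 δ hδ0 y hy).eventually (gt_mem_nhds hη0)
  filter_upwards [h4, ev_log (ε / 4) (ε / 4 + C5) (by positivity), eventually_ge_atTop 2]
    with N h5 h6 hN
  have hlog : 0 < Real.log N := Real.log_pos (by exact_mod_cast hN)
  have h7 : ∀ X ∈ Icc 1 N, |1 / ((X : ℝ) * (X + 1)) * D X| ≤ ε / 4 * (1 / (X : ℝ)) +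
      C5 * ∑ y ∈ ι, (if δ * X < dev y X then 1 / (X : ℝ) else 0) := by
    intro X hX
    rw [mem_Icc] at hX
    have hX0 : (0 : ℝ) < X := by exact_mod_cast hX.1
    have h8 : |D X| ≤ ε / 4 * X + C5 * X * ∑ y ∈ ι, (if δ * X < dev y X then (1 : ℝ) else 0) := by
      by_cases hcase : ∃ y ∈ ι, δ * X < dev y X
      · obtain ⟨y, hy, hy2⟩ := hcase
        have h9 : (1 : ℝ) ≤ ∑ y ∈ ι, (if δ * X < dev y X then (1 : ℝ) else 0) := by
          calc (1 : ℝ) = (if δ * X < dev y X then (1 : ℝ) else 0) := by rw [if_pos hy2]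
            _ ≤ _ := single_le_sum (f := fun y => if δ * X < dev y X then (1 : ℝ) else 0)
              (fun i _ => by split_ifs <;> norm_num) hy
        have h10 : C5 * X * 1 ≤ C5 * X * ∑ y ∈ ι, (if δ * X < dev y X then (1 : ℝ) else 0) :=
          mul_le_mul_of_nonneg_left h9 (by positivity)
        have h11 := h1 X hX.1
        have h12 : 0 ≤ ε / 4 * X := by positivity
        linarith
      · push Not at hcase
        have h9 : ∑ y ∈ ι, dev y X ≤ ι.card • (δ * X) := sum_le_card_nsmul _ _ _ hcase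
        rw [nsmul_eq_mul] at h9
        have h10 : (ι.card : ℝ) * (δ * X) ≤ K * (δ * X) :=
          mul_le_mul_of_nonneg_right hK1 (by positivity)
        have h11 : K * (δ * X) = ε / 4 * X := by
          rw [hδ]
          field_simp
        have h12 : 0 ≤ C5 * X * ∑ y ∈ ι, (if δ * X < dev y X then (1 : ℝ) else 0) :=
          mul_nonneg (by positivity) (sum_nonneg fun i _ => by split_ifs <;> norm_num)
        linarith [h2 X]
    rw [abs_mul, abs_of_nonneg (by positivity : (0 : ℝ) ≤ 1 / ((X : ℝ) * (X + 1)))]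
    have h9 : 1 / ((X : ℝ) * (X + 1)) ≤ 1 / ((X : ℝ) * X) := by
      apply one_div_le_one_div_of_le (by positivity)
      nlinarith
    calc 1 / ((X : ℝ) * (X + 1)) * |D X| ≤ 1 / ((X : ℝ) * X) * |D X| :=
          mul_le_mul_of_nonneg_right h9 (abs_nonneg _)
      _ ≤ 1 / ((X : ℝ) * X) *
          (ε / 4 * X + C5 * X * ∑ y ∈ ι, (if δ * X < dev y X then (1 : ℝ) else 0)) :=
          mul_le_mul_of_nonneg_left h8 (by positivity)
      _ = _ := by
        have h10 : ∑ y ∈ ι, (if δ * X < dev y X then 1 / (X : ℝ) else 0) =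
            1 / (X : ℝ) * ∑ y ∈ ι, (if δ * X < dev y X then (1 : ℝ) else 0) := by
          rw [mul_sum]
          refine sum_congr rfl fun y _ => ?_
          split_ifs <;> simp
        rw [h10]
        field_simp
  have h13 : |∑ X ∈ Icc 1 N, 1 / ((X : ℝ) * (X + 1)) * D X| ≤
      ε / 4 * (1 + Real.log N) + ε / 4 * Real.log N := by
    refine (abs_sum_le_sum_abs _ _).trans ((sum_le_sum h7).trans ?_)
    rw [sum_add_distrib, ← mul_sum, ← mul_sum, sum_comm]
    have h14 : ∑ y ∈ ι, ∑ X ∈ Icc 1 N, (if δ * X < dev y X then 1 / (X : ℝ) else 0) ≤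
        ι.card • (η * Real.log N) := by
      apply sum_le_card_nsmul
      intro y hy
      rw [← sum_filter]
      have h15 := h5 y hy
      rw [div_lt_iff₀ hlog] at h15
      exact h15.le
    rw [nsmul_eq_mul] at h14
    have h16 : (ι.card : ℝ) * (η * Real.log N) ≤ K * (η * Real.log N) :=
      mul_le_mul_of_nonneg_right hK1 (by positivity)
    have h17 : C5 * (K * (η * Real.log N)) ≤ ε / 4 * Real.log N := by
      have h18 : C5 * (K * (η * Real.log N)) = (C5 / (C5 + 1)) * (ε / 4 * Real.log N) := by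
        rw [hη]
        field_simp
      rw [h18]
      apply mul_le_of_le_one_left (by positivity)
      rw [div_le_one (by positivity)]
      linarith
    have h19 := mul_le_mul_of_nonneg_left (h14.trans h16) hC5
    have h20 := mul_le_mul_of_nonneg_left (harm_le N) (by positivity : 0 ≤ ε / 4)
    linarith
  have h21 : |D N / ((N : ℝ) + 1)| ≤ C5 := by
    have hN0 : (0 : ℝ) < (N : ℝ) + 1 := by positivity
    rw [abs_div, abs_of_pos hN0, div_le_iff₀ hN0]
    have := h1 N (by omega)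
    nlinarith
  have h22 := abs_add_le (∑ X ∈ Icc 1 N, 1 / ((X : ℝ) * (X + 1)) * D X) (D N / ((N : ℝ) + 1))
  linarith

lemma small {k q : ℕ} (hF : S_FINQ t c) (ha : 0 < a) (hdisc : b ^ 2 - 4 * a * e = t ^ 2 - 4 * c)
    (hk : 1 ≤ k) (hq : 1 ≤ q) (u j : ℕ) {C5 : ℝ} (hC5 : 0 ≤ C5)
    (hcard : ∀ N : ℕ, 1 ≤ N → ((PP a b e q u N).card : ℝ) ≤ C5 * N) (ε : ℝ) (hε : 0 < ε) :
    ∀ᶠ N : ℕ in atTop, |∑ p ∈ PP a b e q u N, psi k j p * wt p| ≤ ε * Real.log N := by
  have h := scale_sum (fun X => ∑ p ∈ PP a b e q u X, psi k j p) (range q ×ˢ range k)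
    (fun y X => devV a b e k q u y.1 y.2 (j + (k - 1) * y.2) 0 1 0 1 X) hC5 ?_ ?_ ?_ ε hε
  · filter_upwards [h] with N hN
    rw [abel]
    exact hN
  · intro X hX
    refine ((abs_sum_le_sum_abs _ _).trans ?_).trans (hcard X hX)
    refine (sum_le_card_nsmul _ _ 1 fun p _ => abs_psi hk j p).trans ?_
    rw [nsmul_eq_mul, mul_one]
  · intro X
    refine (D_le hk hq u j X).trans (le_of_eq ?_)
    rw [sum_product]
  · intro ε' hε' y _
    exact hF a b e ha hdisc k hk q u y.1 hq y.2 (j + (k - 1) * y.2) 0 1 0 1 le_rfl one_pos le_rfl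
      one_pos ε' hε'

lemma low {q : ℕ} (hL : S_LOWQ t c) (ha : 0 < a) (hdisc : b ^ 2 - 4 * a * e = t ^ 2 - 4 * c)
    (hq : 1 ≤ q) (u : ℕ) : ∃ c₂ : ℝ, 0 < c₂ ∧ ∀ B : ℝ, ∀ᶠ N : ℕ in atTop,
      c₂ * Real.log N + B ≤ ∑ p ∈ PP a b e q u N, 1 * wt p := by
  classical
  obtain ⟨c₁, hc₁, X₀, hX₀⟩ := hL a b e ha hdisc q u hq
  refine ⟨c₁ / 4, by positivity, fun B => ?_⟩
  filter_upwards [ev_log (c₁ / 4) (B + c₁ * X₀) (by positivity), eventually_ge_atTop 1] with N h1 hN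
  rw [abel q u N (fun _ => 1)]
  have h2 : ∀ X ∈ Icc 1 N, c₁ / 2 * (1 / (X : ℝ)) - (if X < X₀ then c₁ else 0) ≤
      1 / ((X : ℝ) * (X + 1)) * ∑ p ∈ PP a b e q u X, (1 : ℝ) := by
    intro X hX
    rw [mem_Icc] at hX
    have hX1 : (1 : ℝ) ≤ X := by exact_mod_cast hX.1
    rw [sum_const, nsmul_eq_mul, mul_one]
    split_ifs with h3
    · have h4 : c₁ / 2 * (1 / (X : ℝ)) ≤ c₁ := by
        have : 1 / (X : ℝ) ≤ 1 := by
          rw [div_le_one (by positivity)]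
          exact hX1
        nlinarith
      have h5 : 0 ≤ 1 / ((X : ℝ) * (X + 1)) * ((PP a b e q u X).card : ℝ) := by positivity
      linarith
    · have h4 := hX₀ X (by omega)
      have h5 : c₁ * X ≤ ((PP a b e q u X).card : ℝ) := by
        refine h4.trans (le_of_eq ?_)
        congr 2
      have h6 : 1 / ((X : ℝ) * (X + 1)) * (c₁ * X) ≤
          1 / ((X : ℝ) * (X + 1)) * ((PP a b e q u X).card : ℝ) :=
        mul_le_mul_of_nonneg_left h5 (by positivity)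
      refine le_trans ?_ h6
      have h7 : 1 / ((X : ℝ) * (X + 1)) * (c₁ * X) = c₁ / (X + 1) := by
        field_simp
      rw [h7, sub_zero]
      rw [div_mul_div_comm, mul_one, div_le_div_iff₀ (by positivity) (by positivity)]
      nlinarith
  have h3 : ∑ X ∈ Icc 1 N, (if X < X₀ then c₁ else 0) ≤ c₁ * X₀ := by
    rw [← sum_filter, sum_const, nsmul_eq_mul, mul_comm]
    apply mul_le_mul_of_nonneg_left _ hc₁.le
    have h4 : (Icc 1 N).filter (fun X => X < X₀) ⊆ range X₀ := by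
      intro X hX
      rw [mem_filter] at hX
      rw [mem_range]
      exact hX.2
    have := card_le_card h4
    rw [card_range] at this
    exact_mod_cast this
  have h4 := sum_le_sum h2
  rw [sum_sub_distrib, ← mul_sum] at h4
  have h5 := mul_le_mul_of_nonneg_left (harm_ge hN) (by positivity : 0 ≤ c₁ / 2)
  have h6 : 0 ≤ (∑ p ∈ PP a b e q u N, (1 : ℝ)) / ((N : ℝ) + 1) := by positivity
  linarith

theorem finl {f : ℕ} {χ : DirichletCharacter ℂ f} (hF : Fd t c f χ) (h : S_FINQ t c)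
    (h2 : S_LOWQ t c) (h3 : S_SCNT t c) : S_FINL t c := by
  classical
  intro a b e ha hdisc k hk q u hq j
  have hd : 0 < 4 * a * e - b ^ 2 := by
    have h4 := hF.disc
    have h5 : (3 : ℤ) ≤ f := by exact_mod_cast hF.three
    linarith
  have hk0 : (0 : ℝ) < k := by exact_mod_cast hk
  obtain ⟨C5, hC5, hcard, hcomp⟩ := compare hF.tt h3 ha hdisc hd q u
  obtain ⟨c₂, hc₂, hlow⟩ := low h2 ha hdisc hq u
  obtain ⟨W, hW⟩ : ∃ W : ℕ → ℝ, W = fun N => ∑ m ∈ (Icc 1 N).filter (fun m => m ≡ u [MOD q]),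
    wq a b e m := ⟨_, rfl⟩
  have hWN : ∀ N, ∑ m ∈ (Icc 1 N).filter (fun m => m ≡ u [MOD q]), wq a b e m = W N := by
    intro N
    rw [hW]
  have hwq : ∀ m, wq a b e m = ∑ d ∈ Nat.divisors (qv a b e m), wt (d, qv a b e m / d) := by
    intro m
    rfl
  have hJ : ∀ N, ∑ m ∈ (Icc 1 N).filter (fun m => m ≡ u [MOD q] ∧
      cardFactors (qv a b e m) ≡ j [MOD k]), wq a b e m - 1 / (k : ℝ) * W N =
      ∑ m ∈ (Icc 1 N).filter (fun m => m ≡ u [MOD q]), ∑ d ∈ Nat.divisors (qv a b e m),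
          psi k j (d, qv a b e m / d) * wt (d, qv a b e m / d) := by
    intro N
    rw [← filter_filter, sum_filter, hW]
    simp only
    rw [mul_sum, ← sum_sub_distrib]
    refine sum_congr rfl fun m _ => ?_
    have h4 : ∀ d ∈ Nat.divisors (qv a b e m), psi k j (d, qv a b e m / d) *
        wt (d, qv a b e m / d) = ((if cardFactors (qv a b e m) ≡ j [MOD k] then 1 else 0) -
          1 / (k : ℝ)) * wt (d, qv a b e m / d) := by
      intro d hdm
      unfold psi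
      have h5 : d * (qv a b e m / d) = qv a b e m :=
        Nat.mul_div_cancel' (Nat.dvd_of_mem_divisors hdm)
      have h6 : qv a b e m ≠ 0 := (Nat.mem_divisors.1 hdm).2
      have h7 : cardFactors (qv a b e m) = cardFactors d + cardFactors (qv a b e m / d) := by
        rw [← ArithmeticFunction.cardFactors_mul, h5]
        · exact (Nat.pos_of_mem_divisors hdm).ne'
        · intro h0
          rw [h0, mul_zero] at h5
          exact h6 h5.symm
      simp only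
      rw [h7]
    rw [sum_congr rfl h4, ← mul_sum, ← hwq]
    split_ifs <;> ring
  rw [Metric.tendsto_atTop]
  intro ε hε
  have e1 := small h ha hdisc hk hq u j hC5 hcard (ε * c₂ / 4) (by positivity)
  have e2 := ev_log (ε * c₂ / 4) C5 (by positivity)
  have e3 := hlow C5
  have e4 := e1.and (e2.and (e3.and (eventually_ge_atTop 2)))
  obtain ⟨N₀, hN₀⟩ := eventually_atTop.1 e4
  refine ⟨N₀, fun N hN => ?_⟩
  obtain ⟨f1, f2, f3, f4⟩ := hN₀ N hN
  have hlog : 0 < Real.log N := Real.log_pos (by exact_mod_cast f4)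
  have g1 := hcomp (psi k j) (abs_psi hk j) N (by omega)
  have g2 := hcomp (fun _ => 1) (fun _ => by simp) N (by omega)
  have g3 : ∑ m ∈ (Icc 1 N).filter (fun m => m ≡ u [MOD q]), ∑ d ∈ Nat.divisors (qv a b e m),
      (fun _ : ℕ × ℕ => (1 : ℝ)) (d, qv a b e m / d) * wt (d, qv a b e m / d) = W N := by
    rw [← hWN]
    refine sum_congr rfl fun m _ => ?_
    rw [hwq]
    refine sum_congr rfl fun d _ => ?_
    simp only
    ring
  rw [g3] at g2
  rw [← hJ] at g1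
  have g4 : c₂ * Real.log N ≤ W N := by
    have := (abs_le.1 g2).1
    linarith
  have hW0 : 0 < W N := lt_of_lt_of_le (by positivity) g4
  rw [Real.dist_eq, hWN]
  obtain ⟨J, hJd⟩ : ∃ J, J = ∑ m ∈ (Icc 1 N).filter (fun m => m ≡ u [MOD q] ∧
      cardFactors (qv a b e m) ≡ j [MOD k]), wq a b e m := ⟨_, rfl⟩
  rw [← hJd] at g1 ⊢
  have g5 : J / W N - 1 / (k : ℝ) = (J - 1 / (k : ℝ) * W N) / W N := by
    field_simp
  rw [g5, abs_div, abs_of_pos hW0, div_lt_iff₀ hW0]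
  have g6 : |J - 1 / (k : ℝ) * W N| ≤ C5 + ε * c₂ / 4 * Real.log N := by
    have h4 := abs_sub_abs_le_abs_sub (J - 1 / (k : ℝ) * W N)
      (∑ p ∈ PP a b e q u N, psi k j p * wt p)
    linarith
  have g7 : ε * (c₂ * Real.log N) ≤ ε * W N := mul_le_mul_of_nonneg_left g4 hε.le
  have g8 : 0 < ε * c₂ * Real.log N := by positivity
  nlinarith

end Pool.Agent.W293.EG
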